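import Mathlib
import Pool.Agent.Helper18.SG.Goals
import Pool.Agent.Helper43.Ah.Row

set_option autoImplicit false
set_option linter.unusedSectionVars false
set_option linter.unusedVariables false

namespace Pool.Agent.Helper86.SG

open Finset Pool.Agent.Lead.Sh Pool.Agent.Helper43.Ah Pool.Agent.Helper43.Gm
open Pool.Agent.Helper18.SG

/-- the exponents of the row `y` -/
def rw (D : Finset (ℕ × ℕ)) (y : ℕ) : Finset ℕ := (D.filter (fun d => d.2 = y)).image (fun d => d.1)

lemma mem_rw {D : Finset (ℕ × ℕ)} {y k : ℕ} : k ∈ rw D y ↔ (k, y) ∈ D := by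
  unfold rw
  rw [mem_image]
  constructor
  · rintro ⟨d, hd, rfl⟩
    rw [mem_filter] at hd
    obtain ⟨h1, rfl⟩ := hd
    exact h1
  · intro h
    exact ⟨(k, y), mem_filter.2 ⟨h, rfl⟩, rfl⟩

lemma card_rw (D : Finset (ℕ × ℕ)) (y : ℕ) : (rw D y).card = (D.filter (fun d => d.2 = y)).card := by
  unfold rw
  apply card_image_of_injOn
  intro a ha b hb hab
  rw [mem_coe, mem_filter] at ha hb
  exact Prod.ext hab (ha.2.trans hb.2.symm)

lemma sum_rw {M : Type*} [AddCommMonoid M] (R : ℕ) (D : Finset (ℕ × ℕ)) (hD : ∀ d ∈ D, d.2 < R)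
    (f : ℕ × ℕ → M) : ∑ d ∈ D, f d = ∑ y ∈ range R, ∑ k ∈ rw D y, f (k, y) := by
  classical
  rw [← sum_fiberwise_of_maps_to (g := fun d : ℕ × ℕ => d.2) (t := range R)
    (fun d hd => mem_range.2 (hD d hd))]
  apply sum_congr rfl
  intro y _
  unfold rw
  rw [sum_image]
  · apply sum_congr rfl
    intro d hd
    rw [mem_filter] at hd
    rw [← hd.2]
  · intro a ha b hb hab
    rw [mem_coe, mem_filter] at ha hb
    exact Prod.ext hab (ha.2.trans hb.2.symm)

theorem goalA2 (hV : GoalV) : GoalA2 := by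
  intro R D N ν n π ε hD hU hℓ
  classical
  -- choose the sets of better rows
  have hU' : ∀ c y, ∃ U : Finset ℕ, c < N → y < R → 0 < n c y → y ∉ U ∧ U.card + n c y ≤ ν c ∧
      ∀ y' < R, y' ∉ U → y' ≠ y → π y' - ε c * y' < π y - ε c * y := by
    intro c y
    by_cases h : c < N ∧ y < R ∧ 0 < n c y
    · obtain ⟨U, hU1⟩ := hU c h.1 y h.2.1 h.2.2
      exact ⟨U, fun _ _ _ => hU1⟩
    · exact ⟨∅, fun h1 h2 h3 => absurd ⟨h1, h2, h3⟩ h⟩
  choose U hU1 using hU'
  -- the index set of the conditions used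
  set I : Finset (ℕ × ℕ × ℕ) := (range N).biUnion (fun c => (range R).biUnion (fun y =>
    (range (n c y)).image (fun a => (c, y, a)))) with hI
  have hmemI : ∀ c y a, (c, y, a) ∈ I ↔ c < N ∧ y < R ∧ a < n c y := by
    intro c y a
    rw [hI, mem_biUnion]
    constructor
    · rintro ⟨c', hc', h⟩
      rw [mem_biUnion] at h
      obtain ⟨y', hy', h⟩ := h
      rw [mem_image] at h
      obtain ⟨a', ha', he⟩ := h
      rw [mem_range] at hc' hy' ha'
      simp only [Prod.mk.injEq] at he
      obtain ⟨rfl, rfl, rfl⟩ := he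
      exact ⟨hc', hy', ha'⟩
    · rintro ⟨h1, h2, h3⟩
      refine ⟨c, mem_range.2 h1, mem_biUnion.2 ⟨y, mem_range.2 h2, mem_image.2
        ⟨a, mem_range.2 h3, rfl⟩⟩⟩
  set V : ℕ → ℕ → ℤ := fun c y => π y - ε c * y with hVd
  set q : ℕ → ℕ → Polynomial ℂ := fun c y => ∏ y' ∈ U c y,
    (Polynomial.X - Polynomial.C (y' : ℂ)) with hq
  have hqdeg : ∀ c y, (q c y).natDegree = (U c y).card := by
    intro c y
    rw [hq]
    simp only
    rw [Polynomial.natDegree_prod_of_monic _ _ (fun i _ => Polynomial.monic_X_sub_C _)]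
    simp only [Polynomial.natDegree_X_sub_C, sum_const, smul_eq_mul, mul_one]
  have hqeval : ∀ c y (t : ℕ), (q c y).eval (t : ℂ) = 0 ↔ t ∈ U c y := by
    intro c y t
    rw [hq]
    simp only
    rw [Polynomial.eval_prod, prod_eq_zero_iff]
    constructor
    · rintro ⟨y', hy', h⟩
      rw [Polynomial.eval_sub, Polynomial.eval_X, Polynomial.eval_C, sub_eq_zero] at h
      have : t = y' := by exact_mod_cast h
      rwa [this]
    · intro h
      exact ⟨t, h, by simp⟩
  set xx : ℕ → ℂ := fun c => (c : ℂ) + 1 with hxx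
  set cf : ℕ × ℕ × ℕ → ℕ × ℕ → ℂ := fun i d =>
    (d.1.choose i.2.2 : ℂ) * xx i.1 ^ (d.1 - i.2.2) * (q i.1 i.2.1).eval (d.2 : ℂ) with hcf
  obtain ⟨e, he, hinj⟩ := poly_inj (fun (i : ↥I) (d : ↥(D)) =>
    (Polynomial.X ^ (V (i : ℕ × ℕ × ℕ).1 (i : ℕ × ℕ × ℕ).2.1 -
      V (i : ℕ × ℕ × ℕ).1 (d : ℕ × ℕ).2).toNat * Polynomial.C (cf i d) : Polynomial ℂ)) (by
    intro γ hγ
    set γ2 : ℕ × ℕ → ℂ := fun d => if h : d ∈ D then γ ⟨d, h⟩ else 0 with hγ2
    have hγ2' : ∀ d : ↥(D), γ2 d = γ d := by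
      intro d; simp only [hγ2]; rw [dif_pos d.2]
    have key : ∀ y < R, ∀ k ∈ rw D y, γ2 (k, y) = 0 := by
      intro y hy
      apply hV (rw D y) N (fun c => n c y) (fun k => γ2 (k, y)) (by
        rw [card_rw]; exact hℓ y hy)
      intro c hc a ha
      have h1 := hγ ⟨(c, y, a), (hmemI c y a).2 ⟨hc, hy, ha⟩⟩
      obtain ⟨u1, u2, u3⟩ := hU1 c y hc hy (by omega)
      have h2 : ∑ d ∈ D, γ2 d * (Polynomial.eval 0 (Polynomial.X ^ (V c y -
          V c d.2).toNat * Polynomial.C (cf (c, y, a) d))) = 0 := by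
        rw [← sum_coe_sort (D)]
        refine Eq.trans ?_ h1
        apply sum_congr rfl
        intro d _
        rw [hγ2']
      rw [sum_rw R D hD, sum_eq_single y] at h2
      · have h3 : ∑ k ∈ rw D y, γ2 (k, y) * ((k.choose a : ℂ) * xx c ^ (k - a)) *
            (q c y).eval (y : ℂ) = 0 := by
          refine Eq.trans ?_ h2
          apply sum_congr rfl
          intro k _
          rw [sub_self, Int.toNat_zero, pow_zero, one_mul, Polynomial.eval_C, hcf]
          simp only
          ring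
        rw [← sum_mul] at h3
        rcases mul_eq_zero.1 h3 with h4 | h4
        · exact h4
        · exact absurd ((hqeval c y y).1 h4) u1
      · intro y' hy' hne
        rw [mem_range] at hy'
        apply sum_eq_zero
        intro k _
        rw [Polynomial.eval_mul, Polynomial.eval_C, Polynomial.eval_pow, Polynomial.eval_X]
        by_cases hu : y' ∈ U c y
        · have : cf (c, y, a) (k, y') = 0 := by
            rw [hcf]
            simp only
            rw [(hqeval c y y').2 hu, mul_zero]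
          rw [this, mul_zero, mul_zero]
        · have h5 := u3 y' hy' hu hne
          have : (V c y - V c y').toNat ≠ 0 := by
            simp only [hVd]
            omega
          simp only
          rw [zero_pow this, zero_mul, mul_zero]
      · intro hn
        exact absurd (mem_range.2 hy) hn
    funext d
    rw [← hγ2', Pi.zero_apply]
    exact key _ (hD _ d.2) _ (mem_rw.2 d.2))
  refine ⟨fun c => (xx c, e ^ (ε c)), ?_⟩
  intro c' hc' d hd
  have hkey := hinj (fun d => c' d * e ^ (π (d : ℕ × ℕ).2)) (by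
    rintro ⟨⟨c, y, a⟩, hi⟩
    obtain ⟨hc, hy, ha⟩ := (hmemI c y a).1 hi
    obtain ⟨u1, u2, u3⟩ := hU1 c y hc hy (by omega)
    have h1 := kill_row (D) c' (ν c) (xx c) (e ^ (ε c)) (by
      intro o ho
      exact hc' (c, o) (by rw [mem_rows, mem_range]; exact ⟨hc, ho⟩)) a (q c y) (by
      rw [hqdeg]; omega)
    have h2 : e ^ (V c y) * ∑ d ∈ D, c' d * ((d.1.choose a : ℂ) * xx c ^ (d.1 - a) *
        (e ^ (ε c)) ^ d.2 * (q c y).eval (d.2 : ℂ)) = 0 := by rw [h1, mul_zero]
    rw [mul_sum] at h2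
    simp only
    rw [sum_coe_sort (D) (fun d => c' d * e ^ (π d.2) * Polynomial.eval e
      (Polynomial.X ^ (V c y - V c d.2).toNat * Polynomial.C (cf (c, y, a) d)))]
    refine Eq.trans ?_ h2
    apply sum_congr rfl
    intro d hd
    rw [Polynomial.eval_mul, Polynomial.eval_C, Polynomial.eval_pow, Polynomial.eval_X]
    by_cases hu : d.2 ∈ U c y
    · have h0 := (hqeval c y d.2).2 hu
      have : cf (c, y, a) d = 0 := by
        rw [hcf]
        simp only
        rw [h0, mul_zero]
      rw [this, h0]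
      simp
    · have hnn : V c d.2 ≤ V c y := by
        by_cases hne : d.2 = y
        · rw [hne]
        · exact (u3 d.2 (hD d hd) hu hne).le
      have hpow : e ^ (π d.2) * e ^ (V c y - V c d.2).toNat = e ^ (V c y) * (e ^ (ε c)) ^ d.2 := by
        rw [← zpow_natCast, Int.toNat_of_nonneg (by omega), ← zpow_add₀ he, ← zpow_natCast,
          ← zpow_mul, ← zpow_add₀ he]
        congr 1
        simp only [hVd]
        ring
      have : cf (c, y, a) d = (d.1.choose a : ℂ) * xx c ^ (d.1 - a) *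
          (q c y).eval (d.2 : ℂ) := rfl
      rw [this]
      linear_combination (c' d * ((d.1.choose a : ℂ) * xx c ^ (d.1 - a) *
          (q c y).eval (d.2 : ℂ))) * hpow)
  have h1 := congrFun hkey ⟨d, hd⟩
  simp only [Pi.zero_apply] at h1
  rcases mul_eq_zero.1 h1 with h2 | h2
  · exact h2
  · exact absurd h2 (zpow_ne_zero _ he)

end Pool.Agent.Helper86.SG
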